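import Pool.Agent.Lib.MP_b3d6af_lc.Prov.Defs

set_option autoImplicit false

/-! One shared copy of some automatically generated unfolding lemmas. -/

theorem Pool.Agent.Lib.MP_b3d6af_lc.Prov.ren_eq1Shared : type_of% @Pool.Agent.Lib.MP_b3d6af_lc.Prov.ren.eq_1 :=
  @Pool.Agent.Lib.MP_b3d6af_lc.Prov.ren.eq_1

theorem Pool.Agent.Lib.MP_b3d6af_lc.Prov.ren_eq2Shared : type_of% @Pool.Agent.Lib.MP_b3d6af_lc.Prov.ren.eq_2 :=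
  @Pool.Agent.Lib.MP_b3d6af_lc.Prov.ren.eq_2

theorem Pool.Agent.Lib.MP_b3d6af_lc.Prov.ren_eq3Shared : type_of% @Pool.Agent.Lib.MP_b3d6af_lc.Prov.ren.eq_3 :=
  @Pool.Agent.Lib.MP_b3d6af_lc.Prov.ren.eq_3

theorem Pool.Agent.Lib.MP_b3d6af_lc.Prov.ren_eq4Shared : type_of% @Pool.Agent.Lib.MP_b3d6af_lc.Prov.ren.eq_4 :=
  @Pool.Agent.Lib.MP_b3d6af_lc.Prov.ren.eq_4

theorem Pool.Agent.Lib.MP_b3d6af_lc.Prov.ren_eq5Shared : type_of% @Pool.Agent.Lib.MP_b3d6af_lc.Prov.ren.eq_5 :=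
  @Pool.Agent.Lib.MP_b3d6af_lc.Prov.ren.eq_5

theorem Pool.Agent.Lib.MP_b3d6af_lc.Prov.ren_eqdefShared : type_of% @Pool.Agent.Lib.MP_b3d6af_lc.Prov.ren.eq_def :=
  @Pool.Agent.Lib.MP_b3d6af_lc.Prov.ren.eq_def

theorem Pool.Agent.Lib.MP_b3d6af_lc.Prov.trA_eq1Shared : type_of% @Pool.Agent.Lib.MP_b3d6af_lc.Prov.trA.eq_1 :=
  @Pool.Agent.Lib.MP_b3d6af_lc.Prov.trA.eq_1

theorem Pool.Agent.Lib.MP_b3d6af_lc.Prov.trA_eq2Shared : type_of% @Pool.Agent.Lib.MP_b3d6af_lc.Prov.trA.eq_2 :=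
  @Pool.Agent.Lib.MP_b3d6af_lc.Prov.trA.eq_2

theorem Pool.Agent.Lib.MP_b3d6af_lc.Prov.trA_eq3Shared : type_of% @Pool.Agent.Lib.MP_b3d6af_lc.Prov.trA.eq_3 :=
  @Pool.Agent.Lib.MP_b3d6af_lc.Prov.trA.eq_3

theorem Pool.Agent.Lib.MP_b3d6af_lc.Prov.trA_eq4Shared : type_of% @Pool.Agent.Lib.MP_b3d6af_lc.Prov.trA.eq_4 :=
  @Pool.Agent.Lib.MP_b3d6af_lc.Prov.trA.eq_4

theorem Pool.Agent.Lib.MP_b3d6af_lc.Prov.trA_eq5Shared : type_of% @Pool.Agent.Lib.MP_b3d6af_lc.Prov.trA.eq_5 :=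
  @Pool.Agent.Lib.MP_b3d6af_lc.Prov.trA.eq_5

theorem Pool.Agent.Lib.MP_b3d6af_lc.Prov.trA_eq6Shared : type_of% @Pool.Agent.Lib.MP_b3d6af_lc.Prov.trA.eq_6 :=
  @Pool.Agent.Lib.MP_b3d6af_lc.Prov.trA.eq_6

theorem Pool.Agent.Lib.MP_b3d6af_lc.Prov.trA_eqdefShared : type_of% @Pool.Agent.Lib.MP_b3d6af_lc.Prov.trA.eq_def :=
  @Pool.Agent.Lib.MP_b3d6af_lc.Prov.trA.eq_def

theorem Pool.Agent.Lib.MP_b3d6af_lc.Prov.trS_eq1Shared : type_of% @Pool.Agent.Lib.MP_b3d6af_lc.Prov.trS.eq_1 :=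
  @Pool.Agent.Lib.MP_b3d6af_lc.Prov.trS.eq_1

theorem Pool.Agent.Lib.MP_b3d6af_lc.Prov.trS_eq2Shared : type_of% @Pool.Agent.Lib.MP_b3d6af_lc.Prov.trS.eq_2 :=
  @Pool.Agent.Lib.MP_b3d6af_lc.Prov.trS.eq_2

theorem Pool.Agent.Lib.MP_b3d6af_lc.Prov.trS_eqdefShared : type_of% @Pool.Agent.Lib.MP_b3d6af_lc.Prov.trS.eq_def :=
  @Pool.Agent.Lib.MP_b3d6af_lc.Prov.trS.eq_def
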