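import Pool.Agent.Lib.MP_b3d6af_lc.Prov.Defs
import Pool.Agent.Lib.MP_b3d6af_lc.AF
import Pool.Agent.Lib.MP_b3d6af_lc.Prov.DefsEq

/-!
Adequacy of the translation `tr`: in every transitive model of ZF the translated formula says
what `Sig` says.
-/

namespace Pool.Agent.Lib.MP_b3d6af_lc.Prov

open ZFSet

section raw
variable {W : Set Z} {φ ψ : Fm} {v : ℕ → Z}

theorem s_neg : Sat W (neg φ) v ↔ ¬ Sat W φ v := sat_neg
theorem s_and : Sat W (and φ ψ) v ↔ Sat W φ v ∧ Sat W ψ v := sat_and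
theorem s_or : Sat W (or φ ψ) v ↔ Sat W φ v ∨ Sat W ψ v := sat_or
theorem s_iff : Sat W (iff φ ψ) v ↔ (Sat W φ v ↔ Sat W ψ v) := sat_iff
theorem s_ex : Sat W (ex φ) v ↔ ∃ x ∈ W, Sat W φ (cons x v) := sat_ex

def Emp (W : Set Z) (a : Z) : Prop := ∀ x ∈ W, x ∉ a
def Suc (W : Set Z) (a b : Z) : Prop := ∀ x ∈ W, (x ∈ b ↔ x ∈ a ∨ x = a)
def Upr (W : Set Z) (p a b : Z) : Prop := ∀ x ∈ W, (x ∈ p ↔ x = a ∨ x = b)
def Opr (W : Set Z) (p a b : Z) : Prop := ∀ x ∈ W, (x ∈ p ↔ Upr W x a a ∨ Upr W x a b)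
def App (W : Set Z) (f a b : Z) : Prop := ∃ x ∈ W, x ∈ f ∧ Opr W x a b
def IsN (W : Set Z) (a : Z) : Prop := ∀ I ∈ W, (∃ e ∈ W, e ∈ I ∧ Emp W e) →
  (∀ x ∈ W, x ∈ I → ∃ y ∈ W, y ∈ I ∧ Suc W x y) → a ∈ I
def IsR (W : Set Z) (r : Z) : Prop :=
  (∀ z ∈ W, z ∈ r → ∃ a ∈ W, ∃ b ∈ W, IsN W a ∧ IsN W b ∧ Opr W z a b) ∧
    ∀ a ∈ W, IsN W a → ∃ b ∈ W, App W r a b ∧ ∀ c ∈ W, App W r a c → c = b
def AddS (W : Set Z) (a b c : Z) : Prop := ∃ f ∈ W, IsR W f ∧ (∀ e ∈ W, Emp W e → App W f e a) ∧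
  (∀ t ∈ W, ∀ s ∈ W, ∀ t' ∈ W, ∀ s' ∈ W, App W f t s → Suc W t t' → Suc W s s' → App W f t' s') ∧
    App W f b c
def MulS (W : Set Z) (a b c : Z) : Prop := ∃ f ∈ W, IsR W f ∧ (∀ e ∈ W, Emp W e → App W f e e) ∧
  (∀ t ∈ W, ∀ s ∈ W, ∀ t' ∈ W, ∀ s' ∈ W, App W f t s → Suc W t t' → AddS W s a s' →
    App W f t' s') ∧ App W f b c

theorem r_emp {a : ℕ} : Sat W (emp a) v ↔ Emp W (v a) := Iff.rfl

theorem r_suc {a b : ℕ} : Sat W (suc a b) v ↔ Suc W (v a) (v b) := by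
  simp only [suc, sat_all, s_iff, s_or, sat_mem, sat_eq, cons_zero, cons_succ, Suc]

theorem r_upr {p a b : ℕ} : Sat W (upr p a b) v ↔ Upr W (v p) (v a) (v b) := by
  simp only [upr, sat_all, s_iff, s_or, sat_mem, sat_eq, cons_zero, cons_succ, Upr]

theorem r_opr {p a b : ℕ} : Sat W (opr p a b) v ↔ Opr W (v p) (v a) (v b) := by
  simp only [opr, sat_all, s_iff, s_or, sat_mem, r_upr, cons_zero, cons_succ, Opr]

theorem r_app {f a b : ℕ} : Sat W (app f a b) v ↔ App W (v f) (v a) (v b) := by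
  simp only [app, s_ex, s_and, sat_mem, r_opr, cons_zero, cons_succ, App]

theorem r_isNat {a : ℕ} : Sat W (isNat a) v ↔ IsN W (v a) := by
  simp only [isNat, sat_all, sat_imp, s_ex, s_and, sat_mem, r_emp, r_suc, cons_zero, cons_succ,
    IsN]

theorem r_isReal {r : ℕ} : Sat W (isReal r) v ↔ IsR W (v r) := by
  simp only [isReal, sat_all, sat_imp, s_ex, s_and, sat_mem, sat_eq, r_isNat, r_opr, r_app,
    cons_zero, cons_succ, IsR]

theorem r_add {a b c : ℕ} : Sat W (add a b c) v ↔ AddS W (v a) (v b) (v c) := by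
  simp only [add, sat_all, sat_imp, s_ex, s_and, r_isReal, r_emp, r_app, r_suc,
    cons_zero, cons_succ, AddS]

theorem r_mul {a b c : ℕ} : Sat W (mul a b c) v ↔ MulS W (v a) (v b) (v c) := by
  simp only [mul, sat_all, sat_imp, s_ex, s_and, r_isReal, r_emp, r_app, r_suc, r_add,
    cons_zero, cons_succ, MulS]

end raw

section abs
variable {W : Set Z} (hW : ZF W) {a b c f p : Z}
include hW

theorem emp_iff (ha : a ∈ W) : Emp W a ↔ a = ∅ :=
  sat_emp (v := fun _ => a) (i := 0) hW.trans ha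

theorem suc_iff (ha : a ∈ W) (hb : b ∈ W) : Suc W a b ↔ b = insert a a := by
  rw [← Tr.ext hW.trans hb]
  · simp only [Suc, mem_insert_iff, or_comm]
  · intro x hx
    rcases mem_insert_iff.1 hx with rfl | h
    exacts [ha, hW.trans _ ha _ h]

theorem opr_iff (hp : p ∈ W) (ha : a ∈ W) (hb : b ∈ W) : Opr W p a b ↔ p = pair a b :=
  (r_opr (v := cons p (cons a fun _ => b)) (p := 0) (a := 1) (b := 2)).symm.trans
    (sat_pr (v := cons p (cons a fun _ => b)) (i := 0) (j := 1) (k := 2) hW hp ha hb)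

theorem app_iff (hf : f ∈ W) (ha : a ∈ W) (hb : b ∈ W) : App W f a b ↔ pair a b ∈ f :=
  ⟨fun ⟨_, h1, h2, h3⟩ => (opr_iff hW h1 ha hb).1 h3 ▸ h2, fun h =>
    ⟨_, hW.trans _ hf _ h, h, (opr_iff hW (hW.trans _ hf _ h) ha hb).2 rfl⟩⟩

theorem suc_nat (n : ℕ) : Suc W (nat n) (nat (n + 1)) :=
  (suc_iff hW (hW.nat_mem _) (hW.nat_mem _)).2 rfl

theorem isN_iff : IsN W a ↔ ∃ n, a = nat n := by
  constructor
  · intro h
    refine mem_omega.1 (h _ hW.inf ⟨∅, hW.empty_mem, nat_mem_omega 0,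
      (emp_iff hW hW.empty_mem).2 rfl⟩ fun x _ hx => ?_)
    obtain ⟨n, rfl⟩ := mem_omega.1 hx
    exact ⟨_, hW.nat_mem _, nat_mem_omega (n + 1), suc_nat hW n⟩
  · rintro ⟨n, rfl⟩ I _ ⟨e, h1, h2, h3⟩ h4
    induction n with
    | zero =>
      obtain rfl := (emp_iff hW h1).1 h3
      exact h2
    | succ n ih =>
      obtain ⟨y, h5, h6, h7⟩ := h4 _ (hW.nat_mem n) ih
      obtain rfl := (suc_iff hW (hW.nat_mem n) h5).1 h7
      exact h6

theorem app_real {x : ℕ → ℕ} (hx : real x ∈ W) {n : ℕ} (hb : b ∈ W) :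
    App W (real x) (nat n) b ↔ b = nat (x n) :=
  (app_iff hW hx (hW.nat_mem n) hb).trans pair_mem_real

theorem isR_iff (hf : f ∈ W) : IsR W f ↔ ∃ x, f = real x := by
  constructor
  · rintro ⟨h1, h2⟩
    have h3 : ∀ z ∈ f, ∃ n k, z = pair (nat n) (nat k) := fun z hz => by
      obtain ⟨a, ha, b, hb, h4, h5, h6⟩ := h1 z (hW.trans _ hf _ hz) hz
      obtain ⟨n, rfl⟩ := (isN_iff hW).1 h4
      obtain ⟨k, rfl⟩ := (isN_iff hW).1 h5
      exact ⟨n, k, (opr_iff hW (hW.trans _ hf _ hz) ha hb).1 h6⟩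
    have h4 : ∀ n, ∃ k, pair (nat n) (nat k) ∈ f ∧ ∀ l, pair (nat n) (nat l) ∈ f → l = k :=
      fun n => by
        obtain ⟨b, hb, h5, h6⟩ := h2 _ (hW.nat_mem n) ((isN_iff hW).2 ⟨n, rfl⟩)
        have h7 := (app_iff hW hf (hW.nat_mem n) hb).1 h5
        obtain ⟨m, k, h8⟩ := h3 _ h7
        obtain rfl := (pair_inj.1 h8).2
        exact ⟨k, h7, fun l hl => nat_injective
          (h6 _ (hW.nat_mem l) ((app_iff hW hf (hW.nat_mem n) (hW.nat_mem l)).2 hl))⟩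
    choose x hx using h4
    refine ⟨x, ZFSet.ext fun z => ⟨fun hz => ?_, fun hz => ?_⟩⟩
    · obtain ⟨n, k, rfl⟩ := h3 z hz
      exact pair_mem_real.2 (by rw [(hx n).2 k hz])
    · obtain ⟨n, rfl⟩ := mem_real.1 hz
      exact (hx n).1
  · rintro ⟨x, rfl⟩
    refine ⟨fun z hz h => ?_, fun a _ h => ?_⟩
    · obtain ⟨n, rfl⟩ := mem_real.1 h
      exact ⟨_, hW.nat_mem n, _, hW.nat_mem (x n), (isN_iff hW).2 ⟨_, rfl⟩, (isN_iff hW).2 ⟨_, rfl⟩,
        (opr_iff hW hz (hW.nat_mem _) (hW.nat_mem _)).2 rfl⟩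
    · obtain ⟨n, rfl⟩ := (isN_iff hW).1 h
      exact ⟨_, hW.nat_mem (x n), (app_real hW hf (hW.nat_mem _)).2 rfl, fun c hc h =>
        (app_real hW hf hc).1 h⟩

theorem app_real' {x : ℕ → ℕ} (hx : real x ∈ W) (ha : a ∈ W) (hb : b ∈ W)
    (h : App W (real x) a b) : ∃ n, a = nat n ∧ b = nat (x n) := by
  obtain ⟨n, h⟩ := mem_real.1 ((app_iff hW hx ha hb).1 h)
  exact ⟨n, pair_inj.1 h⟩

theorem add_iff {m n : ℕ} (hc : c ∈ W) : AddS W (nat m) (nat n) c ↔ c = nat (m + n) := by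
  constructor
  · rintro ⟨f, hf, h1, h2, h3, h4⟩
    obtain ⟨x, rfl⟩ := (isR_iff hW hf).1 h1
    have : ∀ t, x t = m + t := fun t => by
      induction t with
      | zero => exact (nat_injective ((app_real hW hf (n := 0) (hW.nat_mem m)).1
          (h2 _ hW.empty_mem ((emp_iff hW hW.empty_mem).2 rfl)))).symm
      | succ t ih =>
        have := nat_injective ((app_real hW hf (hW.nat_mem _)).1 (h3 _ (hW.nat_mem t) _
          (hW.nat_mem (x t)) _ (hW.nat_mem (t + 1)) _ (hW.nat_mem (x t + 1))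
          ((app_real hW hf (hW.nat_mem _)).2 rfl) (suc_nat hW t) (suc_nat hW _)))
        omega
    rw [← this]
    exact (app_real hW hf hc).1 h4
  · rintro rfl
    have hf : real (fun t => m + t) ∈ W :=
      (UF.lam (F := fun (m : ℕ) t => m + t) (by fun_prop)).fits hW m trivial
    refine ⟨_, hf, (isR_iff hW hf).2 ⟨_, rfl⟩, fun e he h => ?_,
      fun t ht s hs t' ht' s' hs' h1 h2 h3 => ?_, (app_real hW hf hc).2 rfl⟩
    · obtain rfl := (emp_iff hW he).1 h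
      exact (app_real hW hf (n := 0) (hW.nat_mem m)).2 rfl
    · obtain ⟨k, rfl, rfl⟩ := app_real' hW hf ht hs h1
      obtain rfl := (suc_iff hW ht ht').1 h2
      obtain rfl := (suc_iff hW hs hs').1 h3
      exact (app_real hW hf (n := k + 1) hs').2 rfl

theorem mul_iff {m n : ℕ} (hc : c ∈ W) : MulS W (nat m) (nat n) c ↔ c = nat (m * n) := by
  constructor
  · rintro ⟨f, hf, h1, h2, h3, h4⟩
    obtain ⟨x, rfl⟩ := (isR_iff hW hf).1 h1
    have : ∀ t, x t = m * t := fun t => by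
      induction t with
      | zero => exact (nat_injective ((app_real hW hf (n := 0) (hW.nat_mem 0)).1
          (h2 _ hW.empty_mem ((emp_iff hW hW.empty_mem).2 rfl)))).symm
      | succ t ih =>
        have := nat_injective ((app_real hW hf (hW.nat_mem _)).1 (h3 _ (hW.nat_mem t) _
          (hW.nat_mem (x t)) _ (hW.nat_mem (t + 1)) _ (hW.nat_mem (x t + m))
          ((app_real hW hf (hW.nat_mem _)).2 rfl) (suc_nat hW t)
          ((add_iff hW (hW.nat_mem _)).2 rfl)))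
        rw [← this, ih, Nat.mul_succ]
    rw [← this]
    exact (app_real hW hf hc).1 h4
  · rintro rfl
    have hf : real (fun t => m * t) ∈ W :=
      (UF.lam (F := fun (m : ℕ) t => m * t) (by fun_prop)).fits hW m trivial
    refine ⟨_, hf, (isR_iff hW hf).2 ⟨_, rfl⟩, fun e he h => ?_,
      fun t ht s hs t' ht' s' hs' h1 h2 h3 => ?_, (app_real hW hf hc).2 rfl⟩
    · obtain rfl := (emp_iff hW he).1 h
      exact (app_real hW hf (n := 0) (hW.nat_mem 0)).2 rfl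
    · obtain ⟨k, rfl, rfl⟩ := app_real' hW hf ht hs h1
      obtain rfl := (suc_iff hW ht ht').1 h2
      obtain rfl := (add_iff hW hs').1 h3
      exact (app_real hW hf (n := k + 1) hs').2 rfl

end abs

section main
variable {W : Set Z} (hW : ZF W) {v : ℕ → Z}
include hW

theorem sat_isReal {r : ℕ} (h : v r ∈ W) : Sat W (isReal r) v ↔ ∃ x, v r = real x :=
  r_isReal.trans (isR_iff hW h)

theorem sat_isNat {r : ℕ} : Sat W (isNat r) v ↔ ∃ n, v r = nat n :=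
  r_isNat.trans (isN_iff hW)

theorem sat_bind (hv : ∀ i, v i ∈ W) {o : Option ℕ} {φ : Fm} {z : Z} (h : o.elim ∅ v = z) :
    Sat W (bind o φ) v ↔ Sat W φ (cons z v) := by
  subst h
  cases o with
  | none =>
    simp only [bind, s_ex, s_and, Option.elim_none, r_emp, cons_zero]
    exact ⟨fun ⟨x, h1, h2, h3⟩ => (emp_iff hW h1).1 h2 ▸ h3, fun h =>
      ⟨_, hW.empty_mem, (emp_iff hW hW.empty_mem).2 rfl, h⟩⟩
  | some i =>
    simp only [bind, s_ex, s_and, Option.elim_some, sat_eq, cons_zero, cons_succ]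
    exact ⟨fun ⟨x, _, h2, h3⟩ => h2 ▸ h3, fun h => ⟨_, hv i, rfl, h⟩⟩

omit hW in
theorem sh_elim (ν : ℕ → Option ℕ) (x : Z) (i : ℕ) :
    (sh ν i).elim ∅ (cons x v) = (ν i).elim ∅ v := by
  unfold sh
  cases ν i <;> rfl

/-- The real variables are assigned correctly. -/
def RInv (ρ : ℕ → Option ℕ) (v : ℕ → Z) (R : List (ℕ → ℕ)) : Prop :=
  ∀ r, (ρ r).elim (R.getD r 0 = 0) fun f => v f = real (R.getD r 0)

omit hW in
theorem RInv.sh {ρ : ℕ → Option ℕ} {R : List (ℕ → ℕ)} (h : RInv ρ v R) (x : Z) :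
    RInv (sh ρ) (cons x v) R := fun r => by
  have := h r
  unfold Prov.sh
  cases e : ρ r <;> rw [e] at this <;> exact this

theorem sat_trA (θ : Ar) : ∀ (ρ ν : ℕ → Option ℕ) (v : ℕ → Z) (R : List (ℕ → ℕ)) (N : ℕ → ℕ),
    (∀ i, v i ∈ W) → (∀ i, (ν i).elim ∅ v = nat (N i)) → RInv ρ v R →
      (Sat W (trA θ ρ ν) v ↔ θ.Sat R N) := by
  induction θ with
  | add i j k =>
    intro ρ ν v R N h1 h2 _
    have h4 := cons_mem (hW.nat_mem (N i)) h1
    have h5 := cons_mem (hW.nat_mem (N j)) h4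
    rw [trA, sat_bind hW h1 (h2 i), sat_bind hW h4 ((sh_elim ..).trans (h2 j)),
      sat_bind hW h5 ((sh_elim ..).trans ((sh_elim ..).trans (h2 k))), r_add]
    exact (add_iff hW (hW.nat_mem _)).trans (nat_inj.trans eq_comm)
  | mul i j k =>
    intro ρ ν v R N h1 h2 _
    have h4 := cons_mem (hW.nat_mem (N i)) h1
    have h5 := cons_mem (hW.nat_mem (N j)) h4
    rw [trA, sat_bind hW h1 (h2 i), sat_bind hW h4 ((sh_elim ..).trans (h2 j)),
      sat_bind hW h5 ((sh_elim ..).trans ((sh_elim ..).trans (h2 k))), r_mul]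
    exact (mul_iff hW (hW.nat_mem _)).trans (nat_inj.trans eq_comm)
  | app r i j =>
    intro ρ ν v R N h1 h2 h3
    have h4 := cons_mem (hW.nat_mem (N i)) h1
    rw [trA, sat_bind hW h1 (h2 i), sat_bind hW h4 ((sh_elim ..).trans (h2 j))]
    have := h3 r
    cases e : ρ r with
    | none =>
      rw [e] at this
      simp only [Option.elim_none] at this ⊢
      rw [r_emp, Ar.Sat, this]
      exact (emp_iff hW (hW.nat_mem _)).trans ((nat_inj (b := 0)).trans eq_comm)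
    | some f =>
      rw [e] at this
      simp only [Option.elim_some] at this ⊢
      rw [r_app]
      simp only [cons_succ, cons_zero, this]
      exact (app_real hW (this ▸ h1 f) (hW.nat_mem _)).trans (nat_inj.trans eq_comm)
  | neg θ ih =>
    intro ρ ν v R N h1 h2 h3
    rw [trA, s_neg, ih ρ ν v R N h1 h2 h3, Ar.Sat]
  | and θ η ih ih' =>
    intro ρ ν v R N h1 h2 h3
    rw [trA, s_and, ih ρ ν v R N h1 h2 h3, ih' ρ ν v R N h1 h2 h3, Ar.Sat]
  | ex θ ih =>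
    intro ρ ν v R N h1 h2 h3
    have key : ∀ n, Sat W (trA θ (sh ρ) (cons (some 0) (sh ν))) (cons (nat n) v) ↔
        θ.Sat R (cons n N) := fun n =>
      ih _ _ _ _ _ (cons_mem (hW.nat_mem n) h1) (fun i => by
        cases i with
        | zero => rfl
        | succ i => exact (sh_elim ..).trans (h2 i)) (h3.sh _)
    simp only [trA, s_ex, s_and, sat_isNat hW, cons_zero, Ar.Sat]
    constructor
    · rintro ⟨x, -, ⟨n, rfl⟩, h⟩
      exact ⟨n, (key n).1 h⟩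
    · rintro ⟨n, h⟩
      exact ⟨_, hW.nat_mem n, ⟨n, rfl⟩, (key n).2 h⟩

theorem sat_trS (θ : Ar) (k : ℕ) : ∀ (ρ : ℕ → Option ℕ) (v : ℕ → Z) (R : List (ℕ → ℕ)),
    (∀ i, v i ∈ W) → RInv ρ v R → (Sat W (trS k θ ρ) v ↔ Sig (Reals W) k θ R) := by
  induction k with
  | zero =>
    intro ρ v R h1 h2
    exact sat_trA hW θ ρ _ v R 0 h1 (fun _ => rfl) h2
  | succ k ih =>
    intro ρ v R h1 h2
    have key : ∀ u ∈ Reals W, Sat W (trS k θ (cons (some 0) (sh ρ))) (cons (real u) v) ↔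
        Sig (Reals W) k θ (u :: R) := fun u hu =>
      ih _ _ _ (cons_mem hu h1) fun r => by
        cases r with
        | zero => rfl
        | succ r => exact h2.sh (real u) r
    simp only [trS, s_ex, s_and, s_neg, Sig]
    constructor
    · rintro ⟨x, hx, h3, h⟩
      obtain ⟨u, rfl⟩ : ∃ u, x = real u := (sat_isReal hW (v := cons x v) (r := 0) hx).1 h3
      exact ⟨u, hx, fun H => h ((key u hx).2 H)⟩
    · rintro ⟨u, hu, h⟩
      exact ⟨_, hu, (sat_isReal hW (v := cons (real u) v) (r := 0) hu).2 ⟨u, rfl⟩,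
        fun H => h ((key u hu).1 H)⟩

theorem sat_tr {x y : ℕ → ℕ} (hx : x ∈ Reals W) (hy : y ∈ Reals W) (k : ℕ) (ζ : Ar) :
    Sat W (tr k ζ) (cons (real x) fun _ => real y) ↔ Sig (Reals W) k ζ [x, y] :=
  sat_trS hW ζ k _ _ _ (cons_mem hx fun _ => hy) fun r => by
    rcases r with _ | _ | r <;> rfl

end main

end Pool.Agent.Lib.MP_b3d6af_lc.Prov
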