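import Pool.Agent.Lib.MP_b3d6af_lc.Defs

/-!
Formal provability in first-order logic for the language of set theory, and the translation of
`Σ¹_k` formulas into that language.
-/

namespace Pool.Agent.Lib.MP_b3d6af_lc.Prov

/-- `¬ φ` -/
def neg (φ : Fm) : Fm := .imp φ .bot

/-- `φ ∧ ψ` -/
def and (φ ψ : Fm) : Fm := neg (.imp φ (neg ψ))

/-- `φ ∨ ψ` -/
def or (φ ψ : Fm) : Fm := .imp (neg φ) ψ

/-- `φ ↔ ψ` -/
def iff (φ ψ : Fm) : Fm := and (.imp φ ψ) (.imp ψ φ)

/-- `∃ x, φ` -/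
def ex (φ : Fm) : Fm := neg (.all (neg φ))

/-- The free variable `i` is replaced by the variable `f i`. -/
def ren : Fm → (ℕ → ℕ) → Fm
  | .mem i j, f => .mem (f i) (f j)
  | .eq i j, f => .eq (f i) (f j)
  | .bot, _ => .bot
  | .imp φ ψ, f => .imp (ren φ f) (ren ψ f)
  | .all φ, f => .all (ren φ (cons 0 fun i => f i + 1))

/-- Natural deduction for classical first-order logic with equality: `Prf Γ φ` says that `φ` has
a formal proof from the hypotheses `Γ`. The only terms are variables; `ren φ (cons i id)` is `φ`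
with the variable `i` put for the bound variable, and in `allI` the hypotheses are shifted, so
that the variable `0` is fresh for them. -/
inductive Prf : List Fm → Fm → Prop
  | hyp {Γ : List Fm} {φ : Fm} : φ ∈ Γ → Prf Γ φ
  | impI {Γ : List Fm} {φ ψ : Fm} : Prf (φ :: Γ) ψ → Prf Γ (.imp φ ψ)
  | impE {Γ : List Fm} {φ ψ : Fm} : Prf Γ (.imp φ ψ) → Prf Γ φ → Prf Γ ψ
  | raa {Γ : List Fm} {φ : Fm} : Prf (neg φ :: Γ) .bot → Prf Γ φ
  | allI {Γ : List Fm} {φ : Fm} : Prf (Γ.map fun ψ => ren ψ (· + 1)) φ → Prf Γ (.all φ)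
  | allE {Γ : List Fm} {φ : Fm} (i : ℕ) : Prf Γ (.all φ) → Prf Γ (ren φ (cons i id))
  | eqI {Γ : List Fm} (i : ℕ) : Prf Γ (.eq i i)
  | eqE {Γ : List Fm} {φ : Fm} {i j : ℕ} :
      Prf Γ (.eq i j) → Prf Γ (ren φ (cons i id)) → Prf Γ (ren φ (cons j id))

/-- `a = ∅` -/
def emp (a : ℕ) : Fm := .all (neg (.mem 0 (a + 1)))

/-- `b = a ∪ {a}` -/
def suc (a b : ℕ) : Fm := .all (iff (.mem 0 (b + 1)) (or (.mem 0 (a + 1)) (.eq 0 (a + 1))))

/-- `p = {a, b}` -/
def upr (p a b : ℕ) : Fm := .all (iff (.mem 0 (p + 1)) (or (.eq 0 (a + 1)) (.eq 0 (b + 1))))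

/-- `p = {{a}, {a, b}}` -/
def opr (p a b : ℕ) : Fm :=
  .all (iff (.mem 0 (p + 1)) (or (upr 0 (a + 1) (a + 1)) (upr 0 (a + 1) (b + 1))))

/-- `(a, b) ∈ f` -/
def app (f a b : ℕ) : Fm := ex (and (.mem 0 (f + 1)) (opr 0 (a + 1) (b + 1)))

/-- `a ∈ ω`: every set that contains `∅` and is closed under successor contains `a` -/
def isNat (a : ℕ) : Fm :=
  .all (.imp (ex (and (.mem 0 1) (emp 0)))
    (.imp (.all (.imp (.mem 0 1) (ex (and (.mem 0 2) (suc 1 0))))) (.mem (a + 1) 0)))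

/-- `r` is a function from `ω` to `ω`: a set of pairs of natural numbers with exactly one value at
each natural number -/
def isReal (r : ℕ) : Fm :=
  and (.all (.imp (.mem 0 (r + 1)) (ex (ex (and (isNat 1) (and (isNat 0) (opr 2 1 0)))))))
    (.all (.imp (isNat 0) (ex (and (app (r + 2) 1 0) (.all (.imp (app (r + 3) 2 0) (.eq 0 1)))))))

/-- `a + b = c`: some real `f` has `f(0) = a`, `f(t + 1) = f(t) + 1` and `f(b) = c` -/
def add (a b c : ℕ) : Fm :=
  ex (and (isReal 0) (and (.all (.imp (emp 0) (app 1 0 (a + 2))))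
    (and (.all (.all (.all (.all (.imp (app 4 3 2) (.imp (suc 3 1) (.imp (suc 2 0) (app 4 1 0))))))))
      (app 0 (b + 1) (c + 1)))))

/-- `a * b = c`: some real `f` has `f(0) = 0`, `f(t + 1) = f(t) + a` and `f(b) = c` -/
def mul (a b c : ℕ) : Fm :=
  ex (and (isReal 0) (and (.all (.imp (emp 0) (app 1 0 0)))
    (and (.all (.all (.all (.all
        (.imp (app 4 3 2) (.imp (suc 3 1) (.imp (add 2 (a + 5) 0) (app 4 1 0))))))))
      (app 0 (b + 1) (c + 1)))))

/-- An assignment sends a variable of `Ar` to a variable of `Fm`, or to `none` (the default value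
`0` of `Ar.Sat` and `Sig`). `sh` is the same assignment under one more quantifier. -/
def sh (ν : ℕ → Option ℕ) (i : ℕ) : Option ℕ := (ν i).map (· + 1)

/-- `∃ z, z = o ∧ φ`, where `none` stands for `∅` -/
def bind (o : Option ℕ) (φ : Fm) : Fm := ex (and (o.elim (emp 0) fun i => .eq 0 (i + 1)) φ)

/-- Translation of an arithmetical formula; `ρ` assigns the real variables, `ν` the number
variables. -/
def trA : Ar → (ℕ → Option ℕ) → (ℕ → Option ℕ) → Fm
  | .add i j k, _, ν => bind (ν i) (bind (sh ν j) (bind (sh (sh ν) k) (add 2 1 0)))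
  | .mul i j k, _, ν => bind (ν i) (bind (sh ν j) (bind (sh (sh ν) k) (mul 2 1 0)))
  | .app r i j, ρ, ν => bind (ν i) (bind (sh ν j) ((ρ r).elim (emp 0) fun f => app (f + 2) 1 0))
  | .neg θ, ρ, ν => neg (trA θ ρ ν)
  | .and θ η, ρ, ν => and (trA θ ρ ν) (trA η ρ ν)
  | .ex θ, ρ, ν => ex (and (isNat 0) (trA θ (sh ρ) (cons (some 0) (sh ν))))

/-- Translation of the `Σ¹_k` formula with matrix `θ` (compare `Sig`). -/
def trS : ℕ → Ar → (ℕ → Option ℕ) → Fm
  | 0, θ, ρ => trA θ ρ fun _ => none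
  | k + 1, θ, ρ => ex (and (isReal 0) (neg (trS k θ (cons (some 0) (sh ρ)))))

/-- The `Σ¹_k` formula with matrix `θ` as a formula of set theory in the variables `0`, `1`. -/
def tr (k : ℕ) (θ : Ar) : Fm := trS k θ (cons (some 0) (cons (some 1) fun _ => none))

end Pool.Agent.Lib.MP_b3d6af_lc.Prov
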