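import Pool.Agent.Lib.MP_b3d6af_lc.Prov.Defs
import Pool.Agent.Lib.MP_b3d6af_lc.Core
import Pool.Agent.Lib.MP_b3d6af_lc.Prov.DefsEq

/-!
Derived rules of the calculus `Prf` and the formal proof that two explicit `Σ¹₃` formulas are
complementary.
-/

namespace Pool.Agent.Lib.MP_b3d6af_lc.Prov

/-- renaming under one quantifier -/
def lift (f : ℕ → ℕ) : ℕ → ℕ := cons 0 fun i => f i + 1

theorem ren_all (φ : Fm) (f : ℕ → ℕ) : ren (.all φ) f = .all (ren φ (lift f)) := rfl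
theorem ren_neg (φ : Fm) (f : ℕ → ℕ) : ren (neg φ) f = neg (ren φ f) := rfl
theorem ren_and (φ ψ : Fm) (f : ℕ → ℕ) : ren (and φ ψ) f = and (ren φ f) (ren ψ f) := rfl
theorem ren_ex (φ : Fm) (f : ℕ → ℕ) : ren (ex φ) f = ex (ren φ (lift f)) := rfl
theorem ren_isNat (a : ℕ) (f : ℕ → ℕ) : ren (isNat a) f = isNat (f a) := rfl
theorem ren_isReal (a : ℕ) (f : ℕ → ℕ) : ren (isReal a) f = isReal (f a) := rfl
theorem ren_emp (a : ℕ) (f : ℕ → ℕ) : ren (emp a) f = emp (f a) := rfl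
theorem ren_app (a b c : ℕ) (f : ℕ → ℕ) : ren (app a b c) f = app (f a) (f b) (f c) := rfl
theorem ren_add (a b c : ℕ) (f : ℕ → ℕ) : ren (add a b c) f = add (f a) (f b) (f c) := rfl
theorem ren_mul (a b c : ℕ) (f : ℕ → ℕ) : ren (mul a b c) f = mul (f a) (f b) (f c) := rfl

theorem ren_ren (φ : Fm) : ∀ f g : ℕ → ℕ, ren (ren φ f) g = ren φ fun i => g (f i) := by
  induction φ with
  | mem i j => intro f g; rfl
  | eq i j => intro f g; rfl
  | bot => intro f g; rfl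
  | imp φ ψ h1 h2 => intro f g; simp only [ren, h1, h2]
  | all φ h =>
    intro f g
    simp only [ren, h]
    congr 2
    funext i
    cases i <;> rfl

theorem ren_id (φ : Fm) : ren φ (fun i => i) = φ := by
  induction φ with
  | mem i j => rfl
  | eq i j => rfl
  | bot => rfl
  | imp φ ψ h1 h2 => simp only [ren, h1, h2]
  | all φ h =>
    have e : (cons 0 fun i => i + 1 : ℕ → ℕ) = fun i => i := by
      funext i
      cases i <;> rfl
    simp only [ren, e, h]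

theorem ren_inst (φ : Fm) (f : ℕ → ℕ) (i : ℕ) :
    ren (ren φ (lift f)) (cons (f i) id) = ren (ren φ (cons i id)) f := by
  rw [ren_ren, ren_ren]
  congr 1
  funext j
  cases j <;> rfl

/-- renaming and weakening of derivations -/
theorem Prf.map {Γ : List Fm} {φ : Fm} (h : Prf Γ φ) :
    ∀ (f : ℕ → ℕ) (Δ : List Fm), (∀ ψ ∈ Γ, ren ψ f ∈ Δ) → Prf Δ (ren φ f) := by
  have hc : ∀ {Γ Δ : List Fm} {φ : Fm} {f : ℕ → ℕ}, (∀ ψ ∈ Γ, ren ψ f ∈ Δ) →
      ∀ ψ ∈ φ :: Γ, ren ψ f ∈ ren φ f :: Δ := by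
    intro Γ Δ φ f H ψ hψ
    rcases List.mem_cons.1 hψ with rfl | hψ
    · exact List.mem_cons_self
    · exact List.mem_cons_of_mem _ (H ψ hψ)
  induction h with
  | hyp h => intro f Δ H; exact .hyp (H _ h)
  | impI _ ih => intro f Δ H; exact .impI (ih f _ (hc H))
  | impE _ _ h1 h2 => intro f Δ H; exact .impE (h1 f Δ H) (h2 f Δ H)
  | raa _ ih => intro f Δ H; exact .raa (ih f _ (hc H))
  | allI _ ih =>
    intro f Δ H
    refine .allI (ih (lift f) _ fun ψ hψ => ?_)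
    obtain ⟨χ, h1, rfl⟩ := List.mem_map.1 hψ
    refine List.mem_map.2 ⟨_, H χ h1, ?_⟩
    rw [ren_ren, ren_ren]
    rfl
  | allE i _ ih =>
    intro f Δ H
    rw [← ren_inst]
    exact .allE (f i) (ih f Δ H)
  | eqI i => intro f Δ H; exact .eqI (f i)
  | eqE _ _ h1 h2 =>
    intro f Δ H
    rw [← ren_inst]
    refine .eqE (h1 f Δ H) ?_
    rw [ren_inst]
    exact h2 f Δ H

variable {Γ : List Fm} {φ ψ : Fm}

theorem Prf.wk (h : Prf Γ φ) (ψ : Fm) : Prf (ψ :: Γ) φ := by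
  have := h.map (fun i => i) (ψ :: Γ) fun χ hχ => by
    rw [ren_id]
    exact List.mem_cons_of_mem _ hχ
  rwa [ren_id] at this

theorem Prf.h0 : Prf (φ :: Γ) φ := .hyp List.mem_cons_self

theorem Prf.andI (h1 : Prf Γ φ) (h2 : Prf Γ ψ) : Prf Γ (and φ ψ) :=
  .impI (.impE (.impE .h0 (h1.wk _)) (h2.wk _))

theorem Prf.and1 (h : Prf Γ (and φ ψ)) : Prf Γ φ :=
  .raa (.impE (h.wk _) (.impI (.impI (.impE ((Prf.h0.wk _).wk _) (Prf.h0.wk _)))))

theorem Prf.and2 (h : Prf Γ (and φ ψ)) : Prf Γ ψ :=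
  .raa (.impE (h.wk _) (.impI (Prf.h0.wk _)))

theorem Prf.exI (i : ℕ) (h : Prf Γ (ren φ (cons i id))) : Prf Γ (ex φ) :=
  .impI (.impE (Prf.allE (φ := neg φ) i .h0) (h.wk _))

theorem Prf.exE (h : Prf Γ (ex φ)) (H : Prf (φ :: Γ.map fun ψ => ren ψ (· + 1)) .bot) :
    Prf Γ .bot := .impE h (.allI (.impI H))

theorem Prf.cases (φ : Fm) (h1 : Prf (φ :: Γ) .bot) (h2 : Prf (neg φ :: Γ) .bot) : Prf Γ .bot :=
  .impE (.impI h2) (.impI h1)

/-- renaming of an assignment -/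
def mp (f : ℕ → ℕ) (ρ : ℕ → Option ℕ) (i : ℕ) : Option ℕ := (ρ i).map f

theorem mp_sh (f : ℕ → ℕ) (ρ : ℕ → Option ℕ) : mp (lift f) (sh ρ) = sh (mp f ρ) := by
  funext i
  simp only [mp, sh]
  cases ρ i <;> rfl

theorem mp_cons (f : ℕ → ℕ) (a : ℕ) (ρ : ℕ → Option ℕ) :
    mp f (cons (some a) ρ) = cons (some (f a)) (mp f ρ) := by
  funext i
  cases i <;> rfl

theorem mp_inst (a : ℕ) (ρ : ℕ → Option ℕ) : mp (cons a id) (sh ρ) = ρ := by
  funext i
  unfold mp sh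
  cases ρ i <;> rfl

theorem ren_bind (o : Option ℕ) (φ : Fm) (f : ℕ → ℕ) :
    ren (bind o φ) f = bind (o.map f) (ren φ (lift f)) := by
  cases o <;> rfl

theorem ren_trA (θ : Ar) : ∀ (ρ ν : ℕ → Option ℕ) (f : ℕ → ℕ),
    ren (trA θ ρ ν) f = trA θ (mp f ρ) (mp f ν) := by
  induction θ with
  | add i j k => intro ρ ν f; simp only [trA, ren_bind, ← mp_sh]; rfl
  | mul i j k => intro ρ ν f; simp only [trA, ren_bind, ← mp_sh]; rfl
  | app r i j =>
    intro ρ ν f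
    simp only [trA, ren_bind, ← mp_sh]
    unfold mp
    cases ρ r <;> rfl
  | neg θ h => intro ρ ν f; simp only [trA, ren_neg, h]
  | and θ η h1 h2 => intro ρ ν f; simp only [trA, ren_and, h1, h2]
  | ex θ h => intro ρ ν f; simp only [trA, ren_ex, ren_and, h, mp_cons, mp_sh]; rfl

theorem ren_trS (θ : Ar) (k : ℕ) : ∀ (ρ : ℕ → Option ℕ) (f : ℕ → ℕ),
    ren (trS k θ ρ) f = trS k θ (mp f ρ) := by
  induction k with
  | zero => intro ρ f; simp only [trS, ren_trA]; rfl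
  | succ k h => intro ρ f; simp only [trS, ren_ex, ren_and, ren_neg, h, mp_cons, mp_sh]; rfl

/-- renaming of the real variables -/
def rr : Ar → (ℕ → ℕ) → Ar
  | .add i j k, _ => .add i j k
  | .mul i j k, _ => .mul i j k
  | .app r i j, g => .app (g r) i j
  | .neg θ, g => .neg (rr θ g)
  | .and θ η, g => .and (rr θ g) (rr η g)
  | .ex θ, g => .ex (rr θ g)

theorem trA_rr (θ : Ar) (g : ℕ → ℕ) : ∀ ρ ν : ℕ → Option ℕ,
    trA (rr θ g) ρ ν = trA θ (fun r => ρ (g r)) ν := by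
  induction θ with
  | add i j k => intro ρ ν; rfl
  | mul i j k => intro ρ ν; rfl
  | app r i j => intro ρ ν; rfl
  | neg θ h => intro ρ ν; simp only [rr, trA, h]
  | and θ η h1 h2 => intro ρ ν; simp only [rr, trA, h1, h2]
  | ex θ h => intro ρ ν; simp only [rr, trA, h]; rfl

theorem trS_rr (θ : Ar) (k : ℕ) : ∀ (g : ℕ → ℕ) (ρ : ℕ → Option ℕ),
    trS k (rr θ (lift^[k] g)) ρ = trS k θ fun r => ρ (g r) := by
  induction k with
  | zero => intro g ρ; exact trA_rr θ g ρ _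
  | succ k h =>
    intro g ρ
    have e : (fun r => cons (some 0) (sh ρ) (lift g r)) =
        cons (some 0) (sh fun r => ρ (g r)) := by
      funext r
      cases r <;> rfl
    simp only [trS, Function.iterate_succ_apply, h, e]

variable {k : ℕ} {θ η : Ar} {ρ : ℕ → Option ℕ}

/-- a universal real quantifier is instantiated -/
theorem Prf.inst {i : ℕ} (h : Prf Γ (neg (trS (k + 1) θ ρ))) (hi : Prf Γ (isReal i)) :
    Prf Γ (trS k θ (cons (some i) ρ)) := by
  refine .raa (.impE (h.wk _) (.exI i ?_))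
  rw [ren_and, ren_neg, ren_trS, mp_cons, mp_inst]
  exact (hi.wk _).andI .h0

/-- an existential real quantifier is eliminated -/
theorem Prf.elim (h : Prf Γ (trS (k + 1) θ ρ))
    (H : ∀ (Δ : List Fm) (f : ℕ → ℕ) (i : ℕ), (∀ φ, Prf Γ φ → Prf Δ (ren φ f)) →
      Prf Δ (isReal i) → Prf Δ (neg (trS k θ (cons (some i) (mp f ρ)))) → Prf Δ .bot) :
    Prf Γ .bot :=
  h.exE (H _ (· + 1) 0 (fun _ hφ => hφ.map _ _ fun _ hψ =>
    List.mem_cons_of_mem _ (List.mem_map_of_mem hψ)) Prf.h0.and1 Prf.h0.and2)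

/-- The two `Σ¹_k` formulas are provably complementary once the first argument is a real. -/
def Comp (k : ℕ) (θ η : Ar) : Prop :=
  ∀ (Γ : List Fm) (x : ℕ) (ρ : ℕ → Option ℕ), Prf Γ (isReal x) →
    (Prf Γ (trS k θ (cons (some x) ρ)) → Prf Γ (trS k η (cons (some x) ρ)) → Prf Γ .bot) ∧
    (Prf Γ (neg (trS k θ (cons (some x) ρ))) → Prf Γ (neg (trS k η (cons (some x) ρ))) →
      Prf Γ .bot)

/-- the matrix for one more, vacuous, quantifier in front -/
def up (k : ℕ) (θ : Ar) : Ar := rr θ (lift^[k] (· + 1))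

theorem trS_up (k : ℕ) (θ : Ar) (o : Option ℕ) (ρ : ℕ → Option ℕ) :
    trS k (up k θ) (cons o ρ) = trS k θ ρ := trS_rr θ k _ _

theorem Comp.succ (h : Comp k θ η) : Comp (k + 1) (up k η) (up k θ) := by
  intro Γ x ρ hx
  refine ⟨fun h1 h2 => h1.elim fun Δ f i e1 _ h3 => ?_, fun h1 h2 => ?_⟩
  · have h4 := e1 _ h2
    have h5 := e1 _ hx
    rw [ren_trS] at h4
    refine h4.elim fun Δ' f' i' e2 _ h6 => ?_
    have h7 := e2 _ h3
    have h8 := e2 _ h5
    rw [trS_up] at h6 h7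
    rw [ren_neg, ren_trS] at h7
    rw [mp_cons, mp_cons] at h6 h7
    exact (h _ _ _ h8).2 h6 h7
  · have h3 := h1.inst hx
    have h4 := h2.inst hx
    rw [trS_up] at h3 h4
    exact (h _ _ _ hx).1 h4 h3

theorem Comp.prf (h : Comp k θ η) :
    Prf [] (.all (.all (.imp (isReal 0) (.imp (isReal 1) (iff (tr k θ) (neg (tr k η))))))) := by
  refine .allI (.allI (.impI (.impI (.andI (.impI (.impI ?_)) (.impI (.raa ?_))))))
  · exact (h _ 0 _ (((Prf.h0.wk _).wk _).wk _)).1 (Prf.h0.wk _) .h0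
  · exact (h _ 0 _ (((Prf.h0.wk _).wk _).wk _)).2 .h0 (Prf.h0.wk _)

/-- the graph of the real `0` is included in the graph of the real `1` -/
def zz : Ar := .neg (.ex (.ex (.and (.app 0 1 0) (.neg (.app 1 1 0)))))

theorem prf_zz (Γ : List Fm) (x : ℕ) (ρ : ℕ → Option ℕ) :
    Prf Γ (trS 0 zz (cons (some x) (cons (some x) ρ))) :=
  .impI (Prf.h0.exE (Prf.h0.and2.exE (.impE Prf.h0.and2.and2 Prf.h0.and2.and1)))

/-- negated matrix of `∃ a, ∀ b, ∃ c, (a ≠ x ∧ A b a) ∨ (a = x ∧ ¬ B c b)` -/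
def th (A B : Ar) : Ar :=
  .and (.neg (.and (.neg (rr zz (· + 2))) (rr A (· + 1))))
    (.neg (.and (rr zz (· + 2)) (.neg (rr B (cons 0 (cons 1 (· + 3)))))))

/-- negated matrix of `∃ a, ∀ b, ∃ c, B b a ∧ ¬ (b ≠ x ∧ A c b)` -/
def et (A B : Ar) : Ar :=
  .neg (.and (rr B (· + 1))
    (.neg (.and (.neg (rr zz (cons 1 (· + 3)))) (rr A (cons 0 (cons 1 (· + 3)))))))

variable {A B : Ar}

theorem e3 {α : Type} (c b a : α) (ρ : ℕ → α) :
    (fun r => cons c (cons b (cons a ρ)) (cons 0 (cons 1 (· + 3)) r)) = cons c (cons b ρ) := by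
  funext r
  rcases r with _ | _ | r <;> rfl

theorem e4 {α : Type} (c b a : α) (ρ : ℕ → α) :
    (fun r => cons c (cons b (cons a ρ)) (cons 1 (· + 3) r)) = cons b ρ := by
  funext r
  rcases r with _ | r <;> rfl

theorem tr_th (c b a : Option ℕ) (ρ : ℕ → Option ℕ) :
    trS 0 (th A B) (cons c (cons b (cons a ρ))) =
      and (neg (and (neg (trS 0 zz (cons a ρ))) (trS 0 A (cons b (cons a ρ)))))
        (neg (and (trS 0 zz (cons a ρ)) (neg (trS 0 B (cons c (cons b ρ)))))) := by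
  simp only [trS, th, trA, trA_rr, e3]
  rfl

theorem tr_et (c b a : Option ℕ) (ρ : ℕ → Option ℕ) :
    trS 0 (et A B) (cons c (cons b (cons a ρ))) =
      neg (and (trS 0 B (cons b (cons a ρ)))
        (neg (and (neg (trS 0 zz (cons b ρ))) (trS 0 A (cons c (cons b ρ)))))) := by
  simp only [trS, et, trA, trA_rr, e3, e4]
  rfl

theorem use_th {a b : ℕ} (h : Prf Γ (neg (trS 2 (th A B) (cons (some a) ρ))))
    (hb : Prf Γ (isReal b)) (hz : Prf Γ (neg (trS 0 zz (cons (some a) ρ))))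
    (hA : Prf Γ (neg (trS 0 A (cons (some b) (cons (some a) ρ))))) : Prf Γ .bot := by
  refine (h.inst hb).elim fun Δ f c e _ h1 => ?_
  have h2 := e _ hz
  have h3 := e _ hA
  rw [ren_neg, ren_trS] at h2 h3
  simp only [mp_cons] at h1 h2 h3
  rw [tr_th] at h1
  exact .impE h1 (.andI (.impI (.impE (h3.wk _) Prf.h0.and2)) (.impI (.impE (h2.wk _) Prf.h0.and1)))

theorem use_et {a b : ℕ} (h : Prf Γ (neg (trS 2 (et A B) (cons (some a) ρ))))
    (hb : Prf Γ (isReal b))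
    (hB : Prf Γ (neg (trS 0 B (cons (some b) (cons (some a) ρ))))) : Prf Γ .bot := by
  refine (h.inst hb).elim fun Δ f c e _ h1 => ?_
  have h3 := e _ hB
  rw [ren_neg, ren_trS] at h3
  simp only [mp_cons] at h1 h3
  rw [tr_et] at h1
  exact .impE h1 (.impI (.impE (h3.wk _) Prf.h0.and1))

theorem both_pos {a b : ℕ} (h1 : Prf Γ (neg (trS 2 (th A B) (cons (some a) ρ))))
    (h2 : Prf Γ (neg (trS 2 (et A B) (cons (some b) ρ)))) (ha : Prf Γ (isReal a))
    (hb : Prf Γ (isReal b)) : Prf Γ .bot := by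
  refine .cases (trS 0 zz (cons (some a) ρ)) ?_ ?_
  · refine ((h1.inst hb).wk _).elim fun Δ f c e hc h3 => ?_
    have h4 := e _ .h0
    have h5 := e _ (h2.wk _)
    rw [ren_neg] at h5
    rw [ren_trS] at h4 h5
    simp only [mp_cons] at h3 h4 h5
    rw [tr_th] at h3
    refine .impE h3 (.andI (.impI (.impE Prf.h0.and1 (h4.wk _))) (.impI ?_))
    exact use_et (h5.wk _) (hc.wk _) Prf.h0.and2
  · refine ((h2.inst ha).wk _).elim fun Δ f c e hc h3 => ?_
    have h4 := e _ .h0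
    have h5 := e _ (h1.wk _)
    rw [ren_neg, ren_trS] at h4 h5
    simp only [mp_cons] at h3 h4 h5
    rw [tr_et] at h3
    refine use_th h5 hc h4 (.impI (.impE (h3.wk _) (.impI ?_)))
    exact .impE Prf.h0.and2 (.andI ((h4.wk _).wk _) (Prf.h0.wk _))

theorem comp3 (A B : Ar) : Comp 3 (th A B) (et A B) := by
  intro Γ x ρ hx
  refine ⟨fun h1 h2 => h1.elim fun Δ f a e1 ha h3 => ?_, fun h1 h2 => ?_⟩
  · have h4 := e1 _ h2
    rw [ren_trS] at h4
    refine h4.elim fun Δ' f' b e2 hb h5 => ?_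
    have h6 := e2 _ h3
    rw [ren_neg, ren_trS, mp_cons] at h6
    exact both_pos h6 h5 (e2 _ ha) hb
  · refine (h1.inst hx).elim fun Δ1 f1 b e1 hb h3 => ?_
    have h4 := e1 _ h1
    have h5 := e1 _ h2
    rw [ren_neg, ren_trS] at h4 h5
    refine (h5.inst hb).elim fun Δ2 f2 c e2 hc h6 => ?_
    have h7 := e2 _ h4
    have h8 := e2 _ h3
    rw [ren_neg, ren_trS] at h7 h8
    simp only [mp_cons] at h6 h7 h8
    have h9 := h8.inst hc
    rw [tr_th] at h9
    have h10 := Prf.raa (.impE (h9.and2.wk _) (.andI (prf_zz _ _ _) .h0))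
    refine (h7.inst hc).elim fun Δ3 f3 d e3 hd h11 => ?_
    have h12 := e3 _ h6
    have h13 := e3 _ h10
    rw [ren_neg] at h12
    rw [ren_trS] at h12 h13
    simp only [mp_cons] at h11 h12 h13
    have h14 := h12.inst hd
    have h15 := h11.inst hd
    rw [tr_et] at h14
    rw [tr_th] at h15
    exact .impE h14 (.andI h13 h15.and1)

end Pool.Agent.Lib.MP_b3d6af_lc.Prov
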