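import Pool.Agent.Lib.MP_b3d6af_lc.Prov.Deriv
import Pool.Agent.Lib.MP_b3d6af_lc.Final

/-!
The provably complementary formulas define the relation with two classes.
-/

namespace Pool.Agent.Lib.MP_b3d6af_lc.Prov

theorem sat_rr (θ : Ar) {g : ℕ → ℕ} {ρ' ρ : List (ℕ → ℕ)}
    (h : ∀ r, ρ'.getD (g r) 0 = ρ.getD r 0) : ∀ ν, (rr θ g).Sat ρ' ν ↔ θ.Sat ρ ν := by
  induction θ with
  | add i j k => intro ν; rfl
  | mul i j k => intro ν; rfl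
  | app r i j => intro ν; simp only [rr, Ar.Sat, h]
  | neg θ h1 => intro ν; simp only [rr, Ar.Sat, h1]
  | and θ η h1 h2 => intro ν; simp only [rr, Ar.Sat, h1, h2]
  | ex θ h1 => intro ν; simp only [rr, Ar.Sat, h1]

theorem sig_rr (R : Set (ℕ → ℕ)) (θ : Ar) (k : ℕ) : ∀ {g : ℕ → ℕ} {ρ' ρ : List (ℕ → ℕ)},
    (∀ r, ρ'.getD (g r) 0 = ρ.getD r 0) → (Sig R k (rr θ (lift^[k] g)) ρ' ↔ Sig R k θ ρ) := by
  induction k with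
  | zero => intro g ρ' ρ h; exact sat_rr θ h _
  | succ k ih =>
    intro g ρ' ρ h
    simp only [Sig, Function.iterate_succ_apply]
    refine exists_congr fun u => and_congr_right fun _ => not_congr (ih fun r => ?_)
    cases r with
    | zero => rfl
    | succ r => exact h r

theorem sig_up {R : Set (ℕ → ℕ)} (hR : R.Nonempty) (θ : Ar) (k : ℕ) (ρ : List (ℕ → ℕ)) :
    Sig R (k + 1) (up k θ) ρ ↔ ¬ Sig R k θ ρ := by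
  have e : ∀ u, Sig R k (up k θ) (u :: ρ) ↔ Sig R k θ ρ := fun u => sig_rr R θ k fun _ => rfl
  obtain ⟨u, hu⟩ := hR
  simp only [Sig, e]
  exact ⟨fun ⟨_, _, h⟩ => h, fun h => ⟨u, hu, h⟩⟩

theorem sat_zz (a x : ℕ → ℕ) (ρ : List (ℕ → ℕ)) : zz.Sat (a :: x :: ρ) 0 ↔ a = x := by
  simp only [zz, Ar.Sat, funext_iff]
  simp only [List.getD_cons_zero, List.getD_cons_succ, cons_zero, cons_one]
  constructor
  · intro h i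
    by_contra hn
    exact h ⟨i, a i, rfl, fun e => hn e.symm⟩
  · rintro h ⟨i, j, h1, h2⟩
    exact h2 ((h i).symm.trans h1)

theorem g3 (c b a : ℕ → ℕ) (ρ : List (ℕ → ℕ)) (r : ℕ) :
    (c :: b :: a :: ρ).getD (cons 0 (cons 1 (· + 3)) r) 0 = (c :: b :: ρ).getD r 0 := by
  rcases r with _ | _ | r <;> rfl

theorem g4 (c b a : ℕ → ℕ) (ρ : List (ℕ → ℕ)) (r : ℕ) :
    (c :: b :: a :: ρ).getD (cons 1 (· + 3) r) 0 = (b :: ρ).getD r 0 := by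
  rcases r with _ | r <;> rfl

theorem sat_th (A B : Ar) (c b a x y : ℕ → ℕ) : (th A B).Sat [c, b, a, x, y] 0 ↔
    ¬ (a ≠ x ∧ A.Sat [b, a, x, y] 0) ∧ ¬ (a = x ∧ ¬ B.Sat [c, b, x, y] 0) := by
  have e1 : (rr zz (· + 2)).Sat [c, b, a, x, y] 0 ↔ a = x :=
    (sat_rr zz (ρ := [a, x, y]) (fun _ => rfl) 0).trans (sat_zz _ _ _)
  have e2 : (rr A (· + 1)).Sat [c, b, a, x, y] 0 ↔ A.Sat [b, a, x, y] 0 :=
    sat_rr A (g := (· + 1)) (ρ' := [c, b, a, x, y]) (ρ := [b, a, x, y]) (fun _ => rfl) 0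
  simp only [th, Ar.Sat, e1, e2, sat_rr B (g3 c b a [x, y]), ne_eq]

theorem sat_et (A B : Ar) (c b a x y : ℕ → ℕ) : (et A B).Sat [c, b, a, x, y] 0 ↔
    ¬ (B.Sat [b, a, x, y] 0 ∧ ¬ (b ≠ x ∧ A.Sat [c, b, x, y] 0)) := by
  have e2 : (rr B (· + 1)).Sat [c, b, a, x, y] 0 ↔ B.Sat [b, a, x, y] 0 :=
    sat_rr B (g := (· + 1)) (ρ' := [c, b, a, x, y]) (ρ := [b, a, x, y]) (fun _ => rfl) 0
  simp only [et, Ar.Sat, e2, sat_rr A (g3 c b a [x, y]), sat_rr zz (g4 c b a [x, y]), sat_zz,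
    ne_eq]

theorem sig_th {R : Set (ℕ → ℕ)} (A B : Ar) {x : ℕ → ℕ} (hx : x ∈ R) (y : ℕ → ℕ) :
    Sig R 3 (th A B) [x, y] ↔ (∃ a ∈ R, a ≠ x ∧ ∀ b ∈ R, A.Sat [b, a, x, y] 0) ∨
      ¬ ∃ a ∈ R, ∀ b ∈ R, B.Sat [b, a, x, y] 0 := by
  simp only [Sig, sat_th]
  constructor
  · rintro ⟨a, ha, h⟩
    by_cases e : a = x
    · refine Or.inr fun ⟨b, hb, h1⟩ => h ⟨b, hb, fun ⟨c, hc, h2⟩ => h2 ⟨fun h3 => h3.1 e, ?_⟩⟩
      exact fun h3 => h3.2 (h1 c hc)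
    · refine Or.inl ⟨a, ha, e, fun b hb => by_contra fun h1 => h ⟨b, hb, fun ⟨c, _, h2⟩ => ?_⟩⟩
      exact h2 ⟨fun h3 => h1 h3.2, fun h3 => e h3.1⟩
  · rintro (⟨a, ha, e, h⟩ | h)
    · exact ⟨a, ha, fun ⟨b, hb, h1⟩ => h1 ⟨b, hb, fun h2 => h2.1 ⟨e, h b hb⟩⟩⟩
    · refine ⟨x, hx, fun ⟨b, hb, h1⟩ => h ⟨b, hb, fun c hc => by_contra fun h2 => ?_⟩⟩
      exact h1 ⟨c, hc, fun h3 => h3.2 ⟨rfl, h2⟩⟩

theorem sig_et {R : Set (ℕ → ℕ)} (A B : Ar) (x y : ℕ → ℕ) :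
    Sig R 3 (et A B) [x, y] ↔ (¬ ∃ a ∈ R, a ≠ x ∧ ∀ b ∈ R, A.Sat [b, a, x, y] 0) ∧
      ∃ a ∈ R, ∀ b ∈ R, B.Sat [b, a, x, y] 0 := by
  simp only [Sig, sat_et]
  constructor
  · rintro ⟨a, ha, h⟩
    refine ⟨fun ⟨b, hb, e, h1⟩ => h ⟨b, hb, fun ⟨c, hc, h2⟩ => h2 fun h3 => h3.2 ⟨e, h1 c hc⟩⟩,
      a, ha, fun b hb => by_contra fun h1 => h ⟨b, hb, fun ⟨c, _, h2⟩ => h2 fun h3 => h1 h3.1⟩⟩
  · rintro ⟨h, a, ha, h1⟩
    refine ⟨a, ha, fun ⟨b, hb, h2⟩ => ?_⟩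
    by_cases e : b = x
    · exact h2 ⟨b, hb, fun h3 => h3 ⟨h1 b hb, fun h4 => h4.1 e⟩⟩
    · refine h ⟨b, hb, e, fun c hc => by_contra fun h3 => ?_⟩
      exact h2 ⟨c, hc, fun h4 => h4 ⟨h1 b hb, fun h5 => h3 h5.2⟩⟩

section
variable {W : Set Z} (hW : ZF W) {Q : (ℕ → ℕ) × (ℕ → ℕ) × (ℕ → ℕ) → Prop}
include hW

theorem both_iff {x : ℕ → ℕ} (hx : x ∈ Reals W) (y : ℕ → ℕ) :
    (∃ a ∈ Reals W, a ≠ x ∧ ∀ b ∈ Reals W, Q (b, lft (rgt a), x) ∧ Q (b, rgt (rgt a), y)) ↔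
      (∃ u ∈ Reals W, ∀ v ∈ Reals W, Q (v, u, x)) ∧ ∃ u ∈ Reals W, ∀ v ∈ Reals W, Q (v, u, y) := by
  constructor
  · rintro ⟨a, ha, -, h⟩
    exact ⟨⟨_, hW.lft_mem (hW.rgt_mem ha), fun b hb => (h b hb).1⟩,
      _, hW.rgt_mem (hW.rgt_mem ha), fun b hb => (h b hb).2⟩
  · rintro ⟨⟨u, hu, h1⟩, u', hu', h2⟩
    have hw : (fun i => ap (lft x) i + 1) ∈ Reals W :=
      UF.fits (f := fun (p : ℕ → ℕ) i => ap (lft p) i + 1) (by fun_prop) hW x hx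
    refine ⟨_, hW.join_mem hw (hW.join_mem hu hu'), fun e => ?_, fun b hb => ?_⟩
    · have := congrFun (congrArg lft e) 0
      rw [lft_join] at this
      simp [ap] at this
    · simp only [lft_join, rgt_join]
      exact ⟨h1 b hb, h2 b hb⟩

theorem either_iff (x y : ℕ → ℕ) :
    (∃ a ∈ Reals W, ∀ b ∈ Reals W, Q (lft b, a, x) ∨ Q (rgt b, a, y)) ↔
      (∃ u ∈ Reals W, ∀ v ∈ Reals W, Q (v, u, x)) ∨ ∃ u ∈ Reals W, ∀ v ∈ Reals W, Q (v, u, y) := by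
  constructor
  · rintro ⟨a, ha, h⟩
    by_contra! H
    obtain ⟨b, h1, h2⟩ := H.1 a ha
    obtain ⟨b', h3, h4⟩ := H.2 a ha
    have := h _ (hW.join_mem h1 h3)
    simp [h2, h4] at this
  · rintro (⟨a, ha, h⟩ | ⟨a, ha, h⟩)
    · exact ⟨a, ha, fun b hb => Or.inl (h _ (hW.lft_mem hb))⟩
    · exact ⟨a, ha, fun b hb => Or.inr (h _ (hW.rgt_mem hb))⟩

end

theorem formulas (m n : ℕ) : ∃ θ η : Ar, Comp (n + 3) θ η ∧ ∀ W, ZF W → ∀ x ∈ Reals W, ∀ y,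
    (Sig (Reals W) (n + 3) θ [x, y] ↔ (Bad m W x ↔ Bad m W y)) ∧
    (Sig (Reals W) (n + 3) η [x, y] ↔ ¬ (Bad m W x ↔ Bad m W y)) := by
  induction n with
  | zero =>
    obtain ⟨Q, h1, h2⟩ := exists_phi m
    obtain ⟨A, hA⟩ := AF.formula (P := fun p => Q (p.1, lft (rgt p.2.1), p.2.2.1) ∧
      Q (p.1, rgt (rgt p.2.1), p.2.2.2)) (by fun_prop) 0
    obtain ⟨B, hB⟩ := AF.formula (P := fun p => Q (lft p.1, p.2.1, p.2.2.1) ∨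
      Q (rgt p.1, p.2.1, p.2.2.2)) (by fun_prop) 0
    refine ⟨th A B, et A B, comp3 A B, fun W hW x hx y => ?_⟩
    have e1 := both_iff hW (Q := Q) hx y
    have e2 := either_iff hW (Q := Q) x y
    rw [← h2 W hW, ← h2 W hW] at e1 e2
    rw [zero_add, sig_th A B hx, sig_et]
    simp only [hA, hB, List.getD_cons_zero, List.getD_cons_succ, zero_add, e1, e2]
    tauto
  | succ n ih =>
    obtain ⟨θ, η, h1, h2⟩ := ih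
    refine ⟨up (n + 3) η, up (n + 3) θ, h1.succ, fun W hW x hx y => ?_⟩
    rw [show n + 1 + 3 = n + 3 + 1 from rfl, sig_up ⟨x, hx⟩, sig_up ⟨x, hx⟩, (h2 W hW x hx y).1,
      (h2 W hW x hx y).2]
    tauto

theorem main0 (n : ℕ) (h : Det (n + 1) Set.univ) :
    ∃ V, CTM V ∧ Det (n + 1) (Reals V) ∧ ∃ P le, Sigma12Forcing V P le ∧ Proper V P le ∧
      ∃ θ η φ : Ar, Comp (n + 3) θ η ∧
        (∀ W, ZF W →
          (∀ x ∈ Reals W, ∀ y ∈ Reals W,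
            (Rel (n + 3) θ W x y ↔ ¬ Rel (n + 3) η W x y) ∧
            (Rel (n + 3) θ W x y ↔ (Sig (Reals W) 2 φ [x] ↔ Sig (Reals W) 2 φ [y]))) ∧
          (∀ x y z, Rel (n + 3) θ W x y → Rel (n + 3) θ W y z → Rel (n + 3) θ W x z) ∧
          Thin W (Rel (n + 3) θ W)) ∧
        (∃ G, Generic V P le G) ∧
        ∀ G, Generic V P le G → ∃ W, Ext V G W ∧ ∃ x, Rel (n + 3) θ W x x ∧
          ∀ y ∈ Reals V, ¬ Rel (n + 3) θ W x y ∧ ¬ Rel (n + 3) θ W y x := by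
  obtain ⟨V, w, h1⟩ := exists_min_model h
  obtain ⟨θ, η, h0, h2⟩ := formulas n n
  obtain ⟨θ', η', φ, hφ⟩ := exists_formulas n
  have h3 : CTM V := ⟨h1.ctbl, h1.good.1, h1.ac⟩
  have h4 := sigma12 n h1.good h1.ac
  refine ⟨V, h3, h1.det, _, _, h4, h1.proper, θ, η, φ, h0, fun W hW => ⟨fun x hx y hy => ?_,
    fun x y z h5 h6 => ⟨h5.1, h6.2.1, (h2 W hW x h5.1 z).1.2
      (((h2 W hW x h5.1 y).1.1 h5.2.2).trans ((h2 W hW y h6.1 z).1.1 h6.2.2))⟩,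
    thin_of_two fun x hx y hy h5 => ⟨hx, hy, (h2 W hW x hx y).1.2 h5⟩⟩, exists_generic h3 h4,
    fun G hG => ?_⟩
  · simp [Rel, hx, hy, (h2 W hW x hx y).1, (h2 W hW x hx y).2, (hφ W hW x x).2.2,
      (hφ W hW y y).2.2]
  · have h5 := hG.ext h1.good h1.ac h1.ctbl
    obtain ⟨h6, h7⟩ := h1.not_bad hG h5
    refine ⟨_, h5, _, ⟨h6, h6, (h2 _ h5.1.2.1 _ h6 _).1.2 Iff.rfl⟩, fun y hy => ?_⟩
    obtain ⟨m, h8, h9, h10⟩ := h1.bad hy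
    have h11 : Bad n _ y := ⟨m, h5.2.1 h8, h9.mono h5.2.1, h10⟩
    exact ⟨fun H => h7 (((h2 _ h5.1.2.1 _ H.1 _).1.1 H.2.2).2 h11),
      fun H => h7 (((h2 _ h5.1.2.1 _ H.1 _).1.1 H.2.2).1 h11)⟩

end Pool.Agent.Lib.MP_b3d6af_lc.Prov
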