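import Pool.Agent.Lib.MP_b3d6af_lc.Prov.Adeq

/-!
Soundness of the calculus `Prf`.
-/

namespace Pool.Agent.Lib.MP_b3d6af_lc.Prov

theorem ren_eq (φ : Fm) : ∀ f, ren φ f = φ.ren f := by
  induction φ with
  | mem => intro f; rfl
  | eq => intro f; rfl
  | bot => intro f; rfl
  | imp φ ψ h1 h2 => intro f; simp only [ren, Fm.ren, h1, h2]
  | all φ h => intro f; simp only [ren, Fm.ren, h]

theorem s_ren {M : Set Z} {φ : Fm} {f : ℕ → ℕ} {v : ℕ → Z} :
    Sat M (ren φ f) v ↔ Sat M φ fun i => v (f i) := by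
  rw [ren_eq, sat_ren]

theorem s_inst {M : Set Z} {φ : Fm} {i : ℕ} {v : ℕ → Z} :
    Sat M (ren φ (cons i id)) v ↔ Sat M φ (cons (v i) v) := by
  rw [s_ren, comp_cons i id v]
  rfl

/-- Soundness: a provable formula holds in every structure `(M, ∈)` under every assignment that
satisfies the hypotheses. -/
theorem Prf.sound {Γ : List Fm} {φ : Fm} (h : Prf Γ φ) (M : Set Z) :
    ∀ v : ℕ → Z, (∀ i, v i ∈ M) → (∀ ψ ∈ Γ, Sat M ψ v) → Sat M φ v := by
  induction h with
  | hyp h => exact fun v _ H => H _ h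
  | impI _ ih => exact fun v hv H h => ih v hv (List.forall_mem_cons.2 ⟨h, H⟩)
  | impE _ _ ih ih' => exact fun v hv H => ih v hv H (ih' v hv H)
  | raa _ ih => exact fun v hv H => by_contra fun h => ih v hv (List.forall_mem_cons.2 ⟨h, H⟩)
  | allI _ ih =>
    exact fun v hv H x hx => ih _ (cons_mem hx hv)
      (List.forall_mem_map.2 fun ψ h => s_ren.2 (H ψ h))
  | allE i _ ih => exact fun v hv H => s_inst.2 (ih v hv H _ (hv i))
  | eqI i => exact fun _ _ _ => rfl
  | eqE _ _ ih ih' =>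
    intro v hv H
    have := s_inst.1 (ih' v hv H)
    rw [show v _ = v _ from ih v hv H] at this
    exact s_inst.2 this

end Pool.Agent.Lib.MP_b3d6af_lc.Prov
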